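import Pool.Agent.Helper15.FC.St3

/-! # Project FC, module SKB -/

set_option autoImplicit false

namespace Pool.Agent.Helper90.FC

open Pool.Agent.Helper15.FC Polynomial

private theorem isUnit_mk_iff {F : Type} [Field F] (r f : F[X]) :
    IsUnit (AdjoinRoot.mk r f) ↔ IsCoprime f r := by
  constructor
  · intro h
    obtain ⟨b, hb⟩ := h.exists_left_inv
    obtain ⟨g, rfl⟩ := AdjoinRoot.mk_surjective b
    rw [← map_mul, ← map_one (AdjoinRoot.mk r), AdjoinRoot.mk_eq_mk] at hb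
    obtain ⟨t, ht⟩ := hb
    exact ⟨g, -t, by linear_combination ht⟩
  · rintro ⟨a, b, hab⟩
    have h1 : AdjoinRoot.mk r a * AdjoinRoot.mk r f = 1 := by
      rw [← map_mul, ← map_one (AdjoinRoot.mk r), AdjoinRoot.mk_eq_mk]
      exact ⟨-b, by linear_combination hab⟩
    exact IsUnit.of_mul_eq_one_right _ h1

private theorem cram_mul {F : Type} [Field F] [Fintype F] (r f g : F[X]) (hr : r.Monic)
    (hg : IsCoprime g r) : cram r (f * g) = cram r f := by
  classical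
  unfold cram
  have h : ∀ d ∈ Dv r, (d ∣ f * g ↔ d ∣ f) := by
    intro d hd
    rw [mem_Dv hr.ne_zero] at hd
    constructor
    · intro h
      have hc : IsCoprime d g := (hg.of_isCoprime_of_dvd_right hd.2).symm
      exact hc.dvd_of_dvd_mul_right h
    · intro h
      exact h.mul_right g
  rw [Finset.filter_congr h]

/-- the bound for one character -/
private theorem D_bound (hCMH : StCMH) (hZS : StZS) (hCOE : StCOE) (hAVT : StAVT) (hTRV : StTRV)
    {F : Type} [Field F] [Fintype F] (k m : ℕ) (r : F[X]) (hr : r.Monic)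
    (χ : MulChar (AdjoinRoot r) ℂ) (hχ : χ ≠ 1) :
    ‖∑ f ∈ Mn F m, (dk k f : ℂ) * χ (AdjoinRoot.mk r f)‖ ≤
      Real.sqrt (qr F) ^ m * qr F ^ (k * r.natDegree) := by
  have hq : (0 : ℝ) < qr F := by
    have : 0 < Fintype.card F := Fintype.card_pos
    exact_mod_cast this
  set Χ : F[X] → ℂ := Hk r 0 χ 1 with hΧ
  have hcm : CM Χ := hCMH F r 0 χ 1 hr
  have hzs : ∀ d : ℕ, r.natDegree + 0 ≤ d → Asum Χ d = 0 := hZS F r 0 χ 1 hr (Or.inr hχ)
  have hval : ∀ f ∈ Mn F m, (dk k f : ℂ) * χ (AdjoinRoot.mk r f) = (dk k f : ℂ) * Χ f := by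
    intro f hf
    have hf1 := (mem_Mn.1 hf).1
    congr 1
    rw [hΧ]
    unfold Hk
    have hu : IsUnit (AdjoinRoot.mk (X ^ (0 + 1) : F[X]) f.reverse) := by
      rw [isUnit_mk_iff, zero_add, pow_one]
      have h0 : f.reverse.coeff 0 = 1 := by
        rw [Polynomial.coeff_zero_reverse]
        exact hf1
      refine ⟨1, -(f.reverse.divX), ?_⟩
      have := Polynomial.divX_mul_X_add f.reverse
      rw [h0, map_one] at this
      linear_combination -this
    rw [MulChar.one_apply hu, mul_one]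
  rw [Finset.sum_congr rfl hval, hCOE F Χ (r.natDegree + 0) hcm hzs k m]
  set D := r.natDegree + 0 with hD
  have hs : 0 < Real.sqrt (qr F) := Real.sqrt_pos.2 hq
  obtain ⟨z, hz, hG⟩ := hAVT (k * D + 1) ((Real.sqrt (qr F))⁻¹) (by omega) (inv_pos.2 hs)
  have hdeg : ((Lp Χ D) ^ k).natDegree < k * D + 1 := by
    have h1 : (Lp Χ D).natDegree ≤ D := by
      unfold Lp
      apply Polynomial.natDegree_sum_le_of_forall_le
      intro d hd
      rw [Finset.mem_range] at hd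
      exact (Polynomial.natDegree_C_mul_X_pow_le _ _).trans hd.le
    have h2 := Polynomial.natDegree_pow_le (p := Lp Χ D) (n := k)
    have h3 : k * (Lp Χ D).natDegree ≤ k * D := Nat.mul_le_mul_left k h1
    omega
  have h1 := hG _ hdeg m
  have hev : ∀ j, ‖((Lp Χ D) ^ k).eval (z j)‖ ^ 2 ≤ (qr F ^ (k * D)) ^ 2 := by
    intro j
    have hu : qr F * ‖z j‖ ^ 2 = 1 := by
      rw [hz j, inv_pow, Real.sq_sqrt hq.le]
      exact mul_inv_cancel₀ hq.ne'
    have h2 := hTRV F Χ D (z j) hcm hu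
    rw [Polynomial.eval_pow, norm_pow]
    apply pow_le_pow_left₀ (by positivity)
    calc ‖(Lp Χ D).eval (z j)‖ ^ k ≤ (qr F ^ D) ^ k := pow_le_pow_left₀ (norm_nonneg _) h2 k
      _ = qr F ^ (k * D) := by rw [← pow_mul, mul_comm]
  have h2 : (1 / ((k * D + 1 : ℕ) : ℝ)) *
      ∑ j ∈ Finset.range (k * D + 1), ‖((Lp Χ D) ^ k).eval (z j)‖ ^ 2 ≤ (qr F ^ (k * D)) ^ 2 := by
    have h3 : ∑ j ∈ Finset.range (k * D + 1), ‖((Lp Χ D) ^ k).eval (z j)‖ ^ 2 ≤
        ((k * D + 1 : ℕ) : ℝ) * (qr F ^ (k * D)) ^ 2 := by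
      calc _ ≤ ∑ _j ∈ Finset.range (k * D + 1), (qr F ^ (k * D)) ^ 2 :=
            Finset.sum_le_sum fun j _ => hev j
        _ = _ := by rw [Finset.sum_const, Finset.card_range, nsmul_eq_mul]
    have hT : (0 : ℝ) < ((k * D + 1 : ℕ) : ℝ) := by positivity
    calc _ ≤ (1 / ((k * D + 1 : ℕ) : ℝ)) * (((k * D + 1 : ℕ) : ℝ) * (qr F ^ (k * D)) ^ 2) :=
          mul_le_mul_of_nonneg_left h3 (by positivity)
      _ = _ := by field_simp
  have h4 : ‖((Lp Χ D) ^ k).coeff m‖ ^ 2 * ((Real.sqrt (qr F))⁻¹ ^ m) ^ 2 ≤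
      (qr F ^ (k * D)) ^ 2 := by
    rw [← pow_mul, mul_comm m 2]
    exact h1.trans h2
  rw [← mul_pow] at h4
  have h5 := (sq_le_sq₀ (by positivity) (by positivity)).1 h4
  rw [inv_pow, ← div_eq_mul_inv, div_le_iff₀ (by positivity)] at h5
  rw [mul_comm (qr F ^ (k * D))] at h5
  refine h5.trans (le_of_eq ?_)
  rw [hD, add_zero]

theorem hSKB (hSPL : StSPL) (hDKM : StDKM) (hUPR : StUPR) (hRAM : StRAM) (hCMH : StCMH)
    (hZS : StZS) (hCOE : StCOE) (hAVT : StAVT) (hTRV : StTRV) (hORR : StORR) (hACF : StACF) :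
    StSKB := by
  classical
  intro F _ _ k n r ν hr hν
  have hq1 : (1 : ℝ) ≤ qr F := by
    have : 1 ≤ Fintype.card F := Fintype.card_pos
    exact_mod_cast this
  have hq : (0 : ℝ) < qr F := by linarith
  have hs : 0 < Real.sqrt (qr F) := Real.sqrt_pos.2 hq
  have hAC : ν ∈ AC r := by
    unfold Pr at hν
    rw [Finset.mem_filter] at hν
    exact (((hACF F).2 r hr).2.1 ν).1 hν.1
  -- the number of characters
  have hcard : (allF (MulChar (AdjoinRoot r) ℂ)).card = phi r :=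
    (hORR F r 1 1 hr isCoprime_one_left isCoprime_one_left).1
  have hfinA : Finite (AdjoinRoot r) := finite_AR hr
  have hfinM : Finite (MulChar (AdjoinRoot r) ℂ) := inferInstance
  have hphi0 : (phi r : ℂ) ≠ 0 := by
    rw [← hcard]
    have : 0 < (allF (MulChar (AdjoinRoot r) ℂ)).card := Finset.card_pos.2 ⟨1, mem_allF 1⟩
    exact_mod_cast this.ne'
  -- choose the coefficients
  have hc : ∀ f0 : F[X], ∃ c : MulChar (AdjoinRoot r) ℂ → ℂ,
      (∀ f : F[X], IsCoprime f r → ν (f0 * f) = ∑ χ ∈ allF (MulChar (AdjoinRoot r) ℂ),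
        c χ * χ (AdjoinRoot.mk r f)) ∧
      ∑ χ ∈ allF (MulChar (AdjoinRoot r) ℂ), ‖c χ‖ ^ 2 ≤ 1 ∧
      (phi r : ℂ) * c 1 = (cram r f0 : ℂ) := by
    intro f0
    obtain ⟨c, h1, h2, h3⟩ := hUPR F r (fun f => ν (f0 * f)) hr
      (fun f => by simp only [((hACF F).1 ν (f0 * f)).1, le_refl])
      (fun f g hfg => by
        obtain ⟨t, ht⟩ := hfg
        have e : f0 * f = r * (f0 * t) + f0 * g := by linear_combination f0 * ht
        change ν (f0 * f) = ν (f0 * g)
        rw [e, AddChar.map_add_eq_mul, hAC, one_mul])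
    refine ⟨c, h1, h2, ?_⟩
    rw [h3, ← hRAM F r f0 ν hr hν]
    exact Finset.sum_congr rfl fun x _ => by rw [mul_comm]
  choose c hc1 hc2 hc3 using hc
  -- sums over polynomials prime to `r`
  have hCp : ∀ (m : ℕ) (χ : MulChar (AdjoinRoot r) ℂ),
      ∑ f ∈ Cp r m, (dk k f : ℂ) * χ (AdjoinRoot.mk r f) =
        ∑ f ∈ Mn F m, (dk k f : ℂ) * χ (AdjoinRoot.mk r f) := by
    intro m χ
    unfold Cp
    rw [Finset.sum_filter]
    refine Finset.sum_congr rfl fun f _ => ?_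
    split_ifs with h
    · rfl
    · rw [MulChar.map_nonunit χ (by rwa [isUnit_mk_iff]), mul_zero]
  -- the general splitting
  have hsplit : ∀ w : F[X] → ℂ, ∑ f ∈ Mn F n, (dk k f : ℂ) * w f =
      ∑ i ∈ Finset.range (n + 1), ∑ f0 ∈ Sm r i, (dk k f0 : ℂ) *
        ∑ f1 ∈ Cp r (n - i), (dk k f1 : ℂ) * w (f0 * f1) := by
    intro w
    rw [hSPL F r n _ hr]
    refine Finset.sum_congr rfl fun i _ => Finset.sum_congr rfl fun f0 h0 => ?_
    rw [Finset.mul_sum]
    refine Finset.sum_congr rfl fun f1 h1 => ?_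
    unfold Sm at h0
    unfold Cp at h1
    rw [Finset.mem_filter] at h0 h1
    obtain ⟨j, hj⟩ := h0.2
    have hcop : IsCoprime f0 f1 := ((h1.2.pow_right (n := j)).of_isCoprime_of_dvd_right hj).symm
    rw [hDKM F k f0 f1 (mem_Mn.1 h0.1).1 (mem_Mn.1 h1.1).1 hcop]
    push_cast
    ring
  have hSn : Sn k n ν = ∑ i ∈ Finset.range (n + 1), ∑ f0 ∈ Sm r i, (dk k f0 : ℂ) *
      ∑ χ ∈ allF (MulChar (AdjoinRoot r) ℂ), c f0 χ *
        ∑ f ∈ Mn F (n - i), (dk k f : ℂ) * χ (AdjoinRoot.mk r f) := by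
    unfold Sn
    rw [hsplit]
    refine Finset.sum_congr rfl fun i _ => Finset.sum_congr rfl fun f0 h0 => ?_
    congr 1
    have e1 : ∀ f1 ∈ Cp r (n - i), (dk k f1 : ℂ) * ν (f0 * f1) =
        ∑ χ ∈ allF (MulChar (AdjoinRoot r) ℂ),
          c f0 χ * ((dk k f1 : ℂ) * χ (AdjoinRoot.mk r f1)) := by
      intro f1 h1
      unfold Cp at h1
      rw [Finset.mem_filter] at h1
      rw [hc1 f0 f1 h1.2, Finset.mul_sum]
      exact Finset.sum_congr rfl fun χ _ => by ring
    rw [Finset.sum_congr rfl e1, Finset.sum_comm]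
    refine Finset.sum_congr rfl fun χ _ => ?_
    rw [← Finset.mul_sum, hCp]
  have hAk : ((Ak k r n : ℝ) : ℂ) = ∑ i ∈ Finset.range (n + 1), ∑ f0 ∈ Sm r i, (dk k f0 : ℂ) *
      (c f0 1 * ∑ f ∈ Mn F (n - i), (dk k f : ℂ) *
        (1 : MulChar (AdjoinRoot r) ℂ) (AdjoinRoot.mk r f)) := by
    have e0 : ((Ak k r n : ℝ) : ℂ) =
        (1 / (phi r : ℂ)) * ∑ f ∈ Mn F n, (dk k f : ℂ) * (cram r f : ℂ) := by
      unfold Ak
      push_cast
      rfl
    rw [e0, hsplit, Finset.mul_sum]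
    refine Finset.sum_congr rfl fun i _ => ?_
    rw [Finset.mul_sum]
    refine Finset.sum_congr rfl fun f0 h0 => ?_
    have e1 : ∀ f1 ∈ Cp r (n - i), (dk k f1 : ℂ) * (cram r (f0 * f1) : ℂ) =
        (phi r : ℂ) * (c f0 1 * ((dk k f1 : ℂ) *
          (1 : MulChar (AdjoinRoot r) ℂ) (AdjoinRoot.mk r f1))) := by
      intro f1 h1
      unfold Cp at h1
      rw [Finset.mem_filter] at h1
      rw [cram_mul r f0 f1 hr h1.2, ← hc3 f0, MulChar.one_apply ((isUnit_mk_iff r f1).2 h1.2)]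
      ring
    rw [Finset.sum_congr rfl e1, ← Finset.mul_sum, ← Finset.mul_sum, hCp]
    field_simp
  -- the difference
  have hdiff : Sn k n ν - ((Ak k r n : ℝ) : ℂ) =
      ∑ i ∈ Finset.range (n + 1), ∑ f0 ∈ Sm r i, (dk k f0 : ℂ) *
        ∑ χ ∈ (allF (MulChar (AdjoinRoot r) ℂ)).erase 1, c f0 χ *
          ∑ f ∈ Mn F (n - i), (dk k f : ℂ) * χ (AdjoinRoot.mk r f) := by
    rw [hSn, hAk, ← Finset.sum_sub_distrib]
    refine Finset.sum_congr rfl fun i _ => ?_
    rw [← Finset.sum_sub_distrib]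
    refine Finset.sum_congr rfl fun f0 _ => ?_
    rw [← Finset.add_sum_erase _ _ (mem_allF (1 : MulChar (AdjoinRoot r) ℂ))]
    ring
  have hphi : (phi r : ℝ) ≤ qr F ^ r.natDegree := by
    have h1 : phi r ≤ (Lw F r.natDegree).card := by
      unfold phi
      exact Finset.card_filter_le _ _
    rw [card_Lw] at h1
    exact_mod_cast h1
  -- one term
  have hterm : ∀ (i : ℕ) (f0 : F[X]),
      ‖∑ χ ∈ (allF (MulChar (AdjoinRoot r) ℂ)).erase 1, c f0 χ *
          ∑ f ∈ Mn F (n - i), (dk k f : ℂ) * χ (AdjoinRoot.mk r f)‖ ≤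
        Real.sqrt (qr F) ^ (n - i) * qr F ^ ((k + 1) * r.natDegree) := by
    intro i f0
    set B : ℝ := Real.sqrt (qr F) ^ (n - i) * qr F ^ (k * r.natDegree) with hB
    have hB0 : 0 ≤ B := by positivity
    have h1 : ‖∑ χ ∈ (allF (MulChar (AdjoinRoot r) ℂ)).erase 1, c f0 χ *
          ∑ f ∈ Mn F (n - i), (dk k f : ℂ) * χ (AdjoinRoot.mk r f)‖ ≤
        ∑ χ ∈ allF (MulChar (AdjoinRoot r) ℂ), ‖c f0 χ‖ * B := by
      calc _ ≤ ∑ χ ∈ (allF (MulChar (AdjoinRoot r) ℂ)).erase 1, ‖c f0 χ‖ * B := by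
            refine norm_sum_le_of_le _ fun χ hχ => ?_
            rw [norm_mul]
            exact mul_le_mul_of_nonneg_left
              (D_bound hCMH hZS hCOE hAVT hTRV k (n - i) r hr χ (Finset.ne_of_mem_erase hχ))
              (norm_nonneg _)
        _ ≤ _ := Finset.sum_le_sum_of_subset_of_nonneg (Finset.erase_subset _ _)
            fun χ _ _ => by positivity
    have h2 : (∑ χ ∈ allF (MulChar (AdjoinRoot r) ℂ), ‖c f0 χ‖ * B) ^ 2 ≤
        (qr F ^ r.natDegree * B) ^ 2 := by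
      calc (∑ χ ∈ allF (MulChar (AdjoinRoot r) ℂ), ‖c f0 χ‖ * B) ^ 2 ≤
            (∑ χ ∈ allF (MulChar (AdjoinRoot r) ℂ), ‖c f0 χ‖ ^ 2) *
              ∑ _χ ∈ allF (MulChar (AdjoinRoot r) ℂ), B ^ 2 :=
            Finset.sum_mul_sq_le_sq_mul_sq _ _ _
        _ ≤ 1 * ((phi r : ℝ) * B ^ 2) := by
            rw [Finset.sum_const, nsmul_eq_mul, hcard]
            exact mul_le_mul_of_nonneg_right (hc2 f0) (by positivity)
        _ ≤ qr F ^ r.natDegree * B ^ 2 := by
            rw [one_mul]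
            exact mul_le_mul_of_nonneg_right hphi (by positivity)
        _ ≤ (qr F ^ r.natDegree) ^ 2 * B ^ 2 := by
            apply mul_le_mul_of_nonneg_right _ (by positivity)
            have : (1 : ℝ) ≤ qr F ^ r.natDegree := one_le_pow₀ hq1
            nlinarith
        _ = _ := by ring
    have h3 := (sq_le_sq₀ (Finset.sum_nonneg fun χ _ => by positivity) (by positivity)).1 h2
    refine (h1.trans h3).trans (le_of_eq ?_)
    rw [hB]
    ring
  rw [hdiff]
  calc _ ≤ ∑ i ∈ Finset.range (n + 1), ∑ f0 ∈ Sm r i, (dk k f0 : ℝ) *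
        (Real.sqrt (qr F) ^ (n - i) * qr F ^ ((k + 1) * r.natDegree)) := by
        refine norm_sum_le_of_le _ fun i _ => norm_sum_le_of_le _ fun f0 _ => ?_
        rw [norm_mul, Complex.norm_natCast]
        exact mul_le_mul_of_nonneg_left (hterm i f0) (Nat.cast_nonneg _)
    _ = _ := by
        unfold kap
        rw [Finset.sum_mul, Finset.sum_mul]
        refine Finset.sum_congr rfl fun i hi => ?_
        rw [Finset.sum_mul, Finset.sum_mul]
        refine Finset.sum_congr rfl fun f0 _ => ?_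
        rw [Finset.mem_range] at hi
        have e : Real.sqrt (qr F) ^ n =
            Real.sqrt (qr F) ^ i * Real.sqrt (qr F) ^ (n - i) := by
          rw [← pow_add]
          congr 1
          omega
        rw [e, inv_pow]
        field_simp

end Pool.Agent.Helper90.FC
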